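import Mathlib

/-!
# Monic quadratic polynomials: both signs are taken `x / (log x)^A` times. Definitions.

Elements of the order `ℤ[τ]`, `τ² = b τ - c`, are pairs of integers: `(x, y)` stands for `x + y τ`.
-/

namespace Pool.Agent.MQ

open Filter Topology MeasureTheory

/-- elements `x + y τ` -/
abbrev El := ℤ × ℤ

/-- the norm `x² + b x y + c y²` -/
def nm (b c : ℤ) (v : El) : ℤ := v.1 ^ 2 + b * v.1 * v.2 + c * v.2 ^ 2

/-- the product -/
def ml (b c : ℤ) (v w : El) : El :=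
  (v.1 * w.1 - c * v.2 * w.2, v.1 * w.2 + v.2 * w.1 + b * v.2 * w.2)

/-- the conjugate -/
def cj (b : ℤ) (v : El) : El := (v.1 + b * v.2, -v.2)

/-- the determinant -/
def dt (v w : El) : ℤ := v.1 * w.2 - v.2 * w.1

/-- the first coordinate of `conj v * w` (the second one is `dt v w`) -/
def bl (b c : ℤ) (v w : El) : ℤ := v.1 * w.1 + b * v.2 * w.1 + c * v.2 * w.2

/-- the polynomial -/
def fv (b c n : ℤ) : ℤ := n ^ 2 + b * n + c

/-- the discriminant -/
def dsc (b c : ℤ) : ℤ := b ^ 2 - 4 * c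

/-- primitive elements -/
def Pm (v : El) : Prop := Int.gcd v.1 v.2 = 1

/-- completely multiplicative functions with values `1` and `-1` -/
structure Sgn (h : ℕ → ℤ) : Prop where
  pm : ∀ n, 1 ≤ n → h n = 1 ∨ h n = -1
  mul : ∀ m n, 1 ≤ m → 1 ≤ n → h (m * n) = h m * h n

/-- the function on elements -/
def gg (b c : ℤ) (h : ℕ → ℤ) (v : El) : ℤ := h (nm b c v).natAbs

/-- the set of the exceptional arguments -/
noncomputable def Bd (b c : ℤ) (h : ℕ → ℤ) (x : ℝ) : Finset ℕ :=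
  (Finset.Icc 1 ⌊x⌋₊).filter (fun n : ℕ => h (fv b c n).natAbs = -1)

/-- the number of divisors -/
noncomputable def tau (n : ℕ) : ℝ := (n.divisors.card : ℝ)

/-- the frequencies `|k| < ⌈Z⌉` -/
noncomputable def KK (Z : ℝ) : Finset ℤ := Finset.Ioo (-⌈Z⌉) ⌈Z⌉

/-- the additive character -/
noncomputable def ex (t : ℝ) : ℂ := Complex.exp (2 * Real.pi * Complex.I * t)

/-- the window: directions from `(1, 0)` (included) to `(lam, 1)` respectively `(-1, 0)`
(excluded) -/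
def wdw (b c : ℤ) (lam : ℝ) (v : El) : Prop :=
  (v.2 = 0 ∧ 0 < v.1) ∨ (0 < v.2 ∧ (dsc b c < 0 ∨ lam * v.2 < v.1))

/-- the coordinate of a direction, in terms of the coordinate of `x / y` -/
noncomputable def uu (ur : ℝ → ℝ) (v : El) : ℝ :=
  if v.2 = 0 then (if 0 < v.1 then 0 else 1) else ur (v.1 / v.2)

/-- integer multiples -/
def sm (k : ℕ) (v : El) : El := ((k : ℤ) * v.1, (k : ℤ) * v.2)

/-- the vectors of a cone -/
def cn (e : ℕ → El) (i s t : ℕ) : El :=
  ((s : ℤ) * (e i).1 + t * (e (i + 1)).1, (s : ℤ) * (e i).2 + t * (e (i + 1)).2)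

/-- a fundamental window for the elements of positive norm modulo a group of units of norm one
(containing `-1`), with an additive coordinate with values in `[0, 1)` -/
structure Sys (b c : ℤ) where
  /-- the end of the window, for positive discriminant -/
  lam : ℝ
  κ : ℝ
  ur : ℝ → ℝ
  /-- the representative in the window -/
  rp : El → El
  r : ℕ
  /-- the window is the union of the half open cones of `e i`, `e (i + 1)`, `i < r` -/
  e : ℕ → El
  c₁ : ℝ
  c₂ : ℝ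
  κ_pos : 0 < κ
  c₁_pos : 0 < c₁
  c₂_pos : 0 < c₂
  pos : ∀ t : ℝ, (dsc b c < 0 ∨ lam ≤ t) → 0 < t ^ 2 + b * t + c
  der : ∀ t : ℝ, (dsc b c < 0 ∨ lam < t) → HasDerivAt ur (-κ / (t ^ 2 + b * t + c)) t
  top : Tendsto ur atTop (𝓝 0)
  botN : dsc b c < 0 → Tendsto ur atBot (𝓝 1)
  botP : 0 ≤ dsc b c → ContinuousWithinAt ur (Set.Ici lam) lam ∧ ur lam = 1
  rp_wd : ∀ v, 0 < nm b c v → wdw b c lam (rp v)
  rp_self : ∀ v, wdw b c lam v → rp v = v
  rp_unit : ∀ v, 0 < nm b c v → ∃ w : El, nm b c w = 1 ∧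
    (∀ z, 0 < nm b c z → rp (ml b c w z) = rp z) ∧ rp v = ml b c w v
  r_pos : 1 ≤ r
  e_zero : e 0 = (1, 0)
  e_last : nm b c (e r) = 1 ∧ uu ur (e r) = 1
  e_det : ∀ i, i < r → dt (e i) (e (i + 1)) = 1
  e_nm : ∀ i, i ≤ r → 0 < nm b c (e i)
  e_ac : ∀ i, i < r → 0 < nm b c (cn e i 1 1) - nm b c (e i) - nm b c (e (i + 1))
  e_wd : ∀ v, wdw b c lam v ↔ ∃ i s t : ℕ, i < r ∧ 1 ≤ s ∧ v = cn e i s t
  u_hom : ∀ v w, wdw b c lam v → wdw b c lam w → ∃ n : ℤ,
    uu ur (rp (ml b c v w)) = uu ur v + uu ur w + n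
  u_det : ∀ i s t s' t' : ℕ, i < r → 0 < dt (cn e i s t) (cn e i s' t') →
    c₁ * dt (cn e i s t) (cn e i s' t') /
        Real.sqrt (nm b c (cn e i s t) * nm b c (cn e i s' t')) ≤
      uu ur (cn e i s' t') - uu ur (cn e i s t) ∧
    uu ur (cn e i s' t') - uu ur (cn e i s t) ≤ c₂ * dt (cn e i s t) (cn e i s' t') /
        Real.sqrt (nm b c (cn e i s t) * nm b c (cn e i s' t'))

namespace Sys
variable {b c : ℤ}

/-- the window -/
def wd (S : Sys b c) (v : El) : Prop := wdw b c S.lam v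

/-- the coordinate of a direction -/
noncomputable def u (S : Sys b c) (v : El) : ℝ := uu S.ur v

open Classical in
/-- the elements of the window of norm at most `X` (finitely many: `fin_window`) -/
noncomputable def MF (S : Sys b c) (X : ℝ) : Finset El :=
  if hf : {v : El | S.wd v ∧ (nm b c v : ℝ) ≤ X}.Finite then hf.toFinset else ∅

/-- the character sum over all elements of the window -/
noncomputable def es (S : Sys b c) (k : ℤ) (X : ℝ) : ℂ :=
  ∑ v ∈ S.MF X, ex (k * S.u v)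

/-- the character sum with the coefficients `gg` -/
noncomputable def As (S : Sys b c) (h : ℕ → ℤ) (k : ℤ) (X : ℝ) : ℂ :=
  ∑ v ∈ S.MF X, (gg b c h v : ℂ) * ex (k * S.u v)

/-- the number of factorisations of `m` -/
noncomputable def rr (S : Sys b c) (X : ℝ) (m : El) : ℕ :=
  ((S.MF X ×ˢ S.MF X).filter (fun q => S.rp (ml b c q.1 q.2) = m)).card

/-- a cell of the Farey partition of order `ρ`; its cone is spanned by `cn i s t`, `cn i s' t'` -/
def Cell (S : Sys b c) (ρ i s t s' t' : ℕ) : Prop :=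
  i < S.r ∧ (s : ℤ) * t' - t * s' = 1 ∧ s + t ≤ ρ ∧ s' + t' ≤ ρ ∧ ρ < s + t + s' + t'

/-- neighbours -/
def Edge (S : Sys b c) (v w : El) : Prop :=
  ∃ i s t s' t' : ℕ, i < S.r ∧ (s : ℤ) * t' - t * s' = 1 ∧ v = cn S.e i s t ∧ w = cn S.e i s' t'

end Sys

open Classical in
/-- a step function which describes `gg h` on most elements of the window of norm at most `X`: it
is locally constant at the scale `1 / X`, up to logarithms -/
structure Loc {b c : ℤ} (S : Sys b c) (h : ℕ → ℤ) (X L : ℝ) (F : ℝ → ℝ) : Prop where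
  per : ∀ t, F (t + 1) = F t
  meas : Measurable F
  pm : ∀ t, F t = 1 ∨ F t = -1
  /-- few jumps -/
  jump : ∃ J : Finset ℝ, (J.card : ℝ) ≤ X / L ∧ ∀ s t : ℝ, s ≤ t →
    (∀ j ∈ J, ∀ n : ℤ, ¬ (s < j + n ∧ j + n ≤ t)) → F s = F t
  /-- most elements are described by `F` -/
  good : (((S.MF X).filter (fun v => ∃ t : ℝ, |t - S.u v| ≤ L / X ∧ F t ≠ gg b c h v)).card : ℝ) ≤
    X / L

/-- the Fourier coefficients of a function of period `1` -/
noncomputable def fc (F : ℝ → ℝ) (k : ℤ) : ℂ :=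
  ∫ t in (0 : ℝ)..1, (F t : ℂ) * ex (-(k * t))

/-- twice the measure of the set where the translation by `s` does not act by the sign `σ` -/
noncomputable def df (F : ℝ → ℝ) (s σ : ℝ) : ℝ := ∫ t in (0 : ℝ)..1, |F (t + s) - σ * F t|

/-- prime elements: `nm (π p) = k₀ p` for all primes `p ∈ P`, with constant sign -/
structure Prs {b c : ℤ} (S : Sys b c) (h : ℕ → ℤ) (P : Finset ℕ) (Y : ℝ) (k₀ : ℕ) (σ : ℤ)
    (el : ℕ → El) : Prop where
  prime : ∀ p ∈ P, p.Prime ∧ (p : ℝ) ≤ Y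
  k0 : 1 ≤ k₀
  ndvd : ∀ p ∈ P, ¬ p ∣ k₀ ∧ ¬ (p : ℤ) ∣ dsc b c
  wd : ∀ p ∈ P, S.wd (el p)
  norm : ∀ p ∈ P, nm b c (el p) = k₀ * p
  sign : ∀ p ∈ P, gg b c h (el p) = σ

/-- the product of the elements `el p`, `p ∈ l` -/
def pd (b c : ℤ) (el : ℕ → El) : List ℕ → El
  | [] => (1, 0)
  | p :: l => ml b c (el p) (pd b c el l)

/-- the average of the character over the prime elements -/
noncomputable def Pa {b c : ℤ} (S : Sys b c) (P : Finset ℕ) (el : ℕ → El) (k : ℤ) : ℂ :=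
  (∑ p ∈ P, ex (k * S.u (el p))) / P.card

end Pool.Agent.MQ
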